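import Pool.Agent.MP_257582_lc.E99.SWAP
import Pool.Agent.MP_257582_lc.E99.JN
import Pool.Agent.MP_257582_lc.E99.RING
import Pool.Agent.MP_257582_lc.E99.MAIN

/-! Parities of the numbers of graphs that receive no homomorphism from a family of chromatic
number three or four. -/

set_option autoImplicit false

namespace Pool.Agent.MP_257582_lc.C80

open Finset SimpleGraph
open Pool.Agent.MP_257582_lc.E99

variable {W : Type}

/-- the graphs with a homomorphism to `C` -/
def hT (W : Type) {Y : Type} (C : SimpleGraph Y) : Set (SimpleGraph W) := {K | Nonempty (K →g C)}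

/-- the graphs that can be coloured with `m` colours -/
def Col (W : Type) (m : ℕ) : Set (SimpleGraph W) := {K | K.Colorable m}

/-- parity of the number of graphs on `k` nodes without a homomorphism from the family -/
noncomputable def fc (F : Set (SimpleGraph W)) (k : ℕ) : ZMod 2 := cnt F fun _ : Fin k => {⊥}

/-- the members with some `m`-colourable components removed -/
def Rem (F : Set (SimpleGraph W)) (m : ℕ) : Set (SimpleGraph W) :=
  {K | ∃ H ∈ F, ∃ A : Set W, K = res H A ∧ (res H Aᶜ).Colorable m ∧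
    ∀ u v, H.Adj u v → (u ∈ A ↔ v ∈ A)}

lemma hT_good {Y : Type} [Nonempty Y] (C : SimpleGraph Y) : Good (hT W C) := by
  classical
  refine ⟨⟨⟨fun _ => Classical.arbitrary Y, fun h => h.elim⟩⟩,
    fun K K' h ⟨f⟩ => ⟨⟨f, fun k => f.map_rel (h k)⟩⟩, fun K K' ⟨f⟩ ⟨f'⟩ hd => ?_⟩
  have n : ∀ u v, K'.Adj u v → u ∉ K.support := fun u v k k' => Set.disjoint_left.1 hd k' ⟨v, k⟩
  refine ⟨⟨fun w => if w ∈ K.support then f w else f' w, ?_⟩⟩
  rintro u v (k | k)
  · rw [if_pos ⟨v, k⟩, if_pos ⟨u, k.symm⟩]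
    exact f.map_rel k
  · rw [if_neg (n u v k), if_neg (n v u k.symm)]
    exact f'.map_rel k

lemma hT_bot {Y : Type} [Nonempty Y] : hT W (⊥ : SimpleGraph Y) = {⊥} := by
  ext K
  refine ⟨fun ⟨f⟩ => le_bot_iff.1 fun u v k => f.map_rel k, fun k => ?_⟩
  obtain rfl : K = ⊥ := k
  exact (hT_good _).bot

lemma col_good {m : ℕ} (hm : 0 < m) : Good (Col W m) :=
  have : Nonempty (Fin m) := ⟨⟨0, hm⟩⟩
  hT_good (⊤ : SimpleGraph (Fin m))

lemma col_jn (d : ℕ) : jn^[d] {⊥} = Col W (2 ^ d) := by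
  obtain ⟨_, j2, j3, j4⟩ := jnrow W
  ext K
  refine ⟨j4 d K, fun ⟨c⟩ => j3 d _ K (fun w => (c w : ℕ)) j2 (fun w => (c w).2) fun i => ?_⟩
  refine le_bot_iff.1 ?_
  rintro u v ⟨k1, k2, k3⟩
  exact c.valid k1 (Fin.ext (Eq.trans k2 (Eq.symm k3)))

lemma rem_not {F : Set (SimpleGraph W)} {m : ℕ} (hF : ∀ H ∈ F, ¬ H.Colorable m) :
    ∀ K ∈ Rem F m, ¬ K.Colorable m := by
  classical
  rintro _ ⟨H, hH, A, rfl, ⟨c'⟩, h⟩ ⟨c⟩
  refine hF H hH ⟨Coloring.mk (fun w => if w ∈ A then c w else c' w) fun {u v} k => ?_⟩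
  by_cases hu : u ∈ A
  · rw [if_pos hu, if_pos ((h u v k).1 hu)]
    exact c.valid ⟨k, hu, (h u v k).1 hu⟩
  · rw [if_neg hu, if_neg (mt (h u v k).2 hu)]
    exact c'.valid ⟨k, hu, mt (h u v k).2 hu⟩

lemma rem_mem {F : Set (SimpleGraph W)} {m : ℕ} (hm : 0 < m) {H : SimpleGraph W} (hH : H ∈ F) :
    H ∈ Rem F m := by
  refine ⟨H, hH, Set.univ, ?_, ⟨Coloring.mk (fun _ => ⟨0, hm⟩) fun k => (k.2.1 trivial).elim⟩,
    fun _ _ _ => Iff.rfl⟩
  ext u v
  exact ⟨fun k => ⟨k, trivial, trivial⟩, fun k => k.1⟩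

lemma iso {F : Set (SimpleGraph W)} {m : ℕ} (hm : 0 < m) {H₀ : SimpleGraph W} (h₀ : H₀ ∈ F)
    (hc : H₀.Colorable (m + 1)) {k : ℕ} (hk : 0 < k) :
    cnt F (fun o : Option (Fin k) => o.elim (Col W m) fun _ => {⊥}) = fc (Rem F m) k := by
  classical
  obtain ⟨c⟩ := hc
  have h1 : ∀ E : SimpleGraph (Option (Fin k)),
      (∀ H ∈ F, ¬ Cont H E fun o : Option (Fin k) => o.elim (Col W m) fun _ => {⊥}) →
      ∀ x, ¬ E.Adj none x := by
    rintro E hE (_ | x) hx
    · exact hx.ne rfl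
    refine hE H₀ h₀ ⟨fun w => if c w = Fin.last m then some x else none, fun u v _ h => ?_, ?_⟩
    · by_cases hu : c u = Fin.last m <;> by_cases hv : c v = Fin.last m
      · exact absurd ((if_pos hu).trans (if_pos hv).symm) h
      · beta_reduce
        rw [if_pos hu, if_neg hv]; exact hx.symm
      · beta_reduce
        rw [if_neg hu, if_pos hv]; exact hx
      · exact absurd ((if_neg hu).trans (if_neg hv).symm) h
    · rintro (_ | t)
      · have q : ∀ w, (if c w = Fin.last m then some x else none) = none → (c w : ℕ) < m :=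
          fun w h => Fin.val_lt_last fun e => by simp [e] at h
        refine ⟨Coloring.mk (fun w => ⟨c w % m, Nat.mod_lt _ hm⟩) fun {u v} h e => ?_⟩
        have e' : (c u : ℕ) % m = c v % m := congrArg Fin.val e
        rw [Nat.mod_eq_of_lt (q u h.2.1), Nat.mod_eq_of_lt (q v h.2.2)] at e'
        exact c.valid h.1 (Fin.ext e')
      · refine le_bot_iff.1 ?_
        rintro u v ⟨k1, k2, k3⟩
        have q : ∀ w, (if c w = Fin.last m then some x else none) = some t → c w = Fin.last m :=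
          fun w h => by_contra fun e => by simp [e] at h
        exact c.valid k1 ((q u k2).trans (q v k3).symm)
  have h2 : ∀ E : SimpleGraph (Option (Fin k)), (∀ x, ¬ E.Adj none x) →
      ((∀ H ∈ F, ¬ Cont H E fun o : Option (Fin k) => o.elim (Col W m) fun _ => {⊥}) ↔
        ∀ H ∈ Rem F m, ¬ Cont H (E.comap some) fun _ => {⊥}) := fun E hE => by
    constructor
    · rintro h _ ⟨H, hH, A, rfl, a1, a2⟩ ⟨ψ, b1, b2⟩
      refine h H hH ⟨fun w => if w ∈ A then some (ψ w) else none, fun u v huv hne => ?_, ?_⟩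
      · by_cases hu : u ∈ A
        · have hv := (a2 u v huv).1 hu
          beta_reduce at hne ⊢
          rw [if_pos hu, if_pos hv] at hne ⊢
          exact b1 u v ⟨huv, hu, hv⟩ fun e => hne (congrArg some e)
        · exact absurd ((if_neg hu).trans (if_neg (mt (a2 u v huv).2 hu)).symm) hne
      · rintro (_ | t)
        · have e : (fun w => if w ∈ A then some (ψ w) else none) ⁻¹' {none} = Aᶜ := by
            ext w
            by_cases hw : w ∈ A <;> simp [hw]
          rw [e]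
          exact a1
        · refine le_bot_iff.1 ?_
          rintro u v ⟨k1, k2, k3⟩
          have q : ∀ w, (if w ∈ A then some (ψ w) else none) = some t → w ∈ A ∧ ψ w = t :=
            fun w h => by
              by_cases hw : w ∈ A
              · rw [if_pos hw] at h
                exact ⟨hw, Option.some.inj h⟩
              · simp [hw] at h
          exact (le_bot_iff.2 (b2 t)) ⟨⟨k1, (q u k2).1, (q v k3).1⟩, (q u k2).2, (q v k3).2⟩
    · rintro h H hH ⟨ψ, b1, b2⟩
      refine h _ ⟨H, hH, (ψ ⁻¹' {none})ᶜ, rfl, by rw [compl_compl]; exact b2 none,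
        fun u v huv => not_congr ⟨fun e => by_contra fun e' => ?_, fun e => by_contra fun e' => ?_⟩⟩
        ⟨fun w => (ψ w).getD ⟨0, hk⟩, fun u v huv hne => ?_, fun t => le_bot_iff.1 ?_⟩
      · have e1 : ψ u = none := e
        exact hE _ (e1 ▸ b1 u v huv fun e2 => e' (e2.symm.trans e1))
      · have e1 : ψ v = none := e
        exact hE _ (e1 ▸ (b1 u v huv fun e2 => e' (e2.trans e1)).symm)
      · obtain ⟨a, ha⟩ := Option.ne_none_iff_exists'.1 huv.2.1
        obtain ⟨b, hb⟩ := Option.ne_none_iff_exists'.1 huv.2.2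
        have := b1 u v huv.1 fun e => hne (congrArg (fun o => Option.getD o ⟨0, hk⟩) e)
        beta_reduce
        rw [ha, hb] at this ⊢
        exact this
      · rintro u v ⟨⟨k1, k2, k3⟩, k4, k5⟩
        obtain ⟨a, ha⟩ := Option.ne_none_iff_exists'.1 k2
        obtain ⟨b, hb⟩ := Option.ne_none_iff_exists'.1 k3
        have k6 : (ψ u).getD ⟨0, hk⟩ = t := k4
        have k7 : (ψ v).getD ⟨0, hk⟩ = t := k5
        rw [ha] at k6
        rw [hb] at k7
        exact (le_bot_iff.2 (b2 (some t))) ⟨k1, ha.trans (congrArg some k6), hb.trans (congrArg some k7)⟩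
  refine congrArg (Nat.cast : ℕ → ZMod 2) (Set.ncard_congr (fun E _ => E.comap some)
    (fun E hE => (h2 E (h1 E hE)).1 hE) (fun E E' hE hE' e => ?_) fun E hE => ?_)
  · have e' : E.comap some = E'.comap some := e
    ext (_ | a) (_ | b)
    · simp
    · exact iff_of_false (h1 E hE _) (h1 E' hE' _)
    · exact iff_of_false (fun h => h1 E hE _ h.symm) fun h => h1 E' hE' _ h.symm
    · change (E.comap some).Adj a b ↔ (E'.comap some).Adj a b
      rw [e']
  · have e : (E.map Function.Embedding.some).comap some = E :=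
      SimpleGraph.comap_map_eq Function.Embedding.some E
    refine ⟨E.map Function.Embedding.some, (h2 _ fun x hx => ?_).2 (by rw [e]; exact hE), e⟩
    obtain ⟨_, _, _, h, _⟩ := (SimpleGraph.map_adj _ _ _ _).1 hx
    exact Option.some_ne_none _ h

lemma fc_zero {F : Set (SimpleGraph W)} {m k : ℕ} (hF : ∀ H ∈ F, ¬ H.Colorable m) (h2 : 2 ≤ k)
    (hk : k ≤ m) : fc F k = 0 := by
  have e : {E : SimpleGraph (Fin k) | ∀ H ∈ F, ¬ Cont H E fun _ => {⊥}} = Set.univ := by
    refine Set.eq_univ_of_forall fun E H hH ⟨ψ, _, b2⟩ => hF H hH (Colorable.mono hk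
      ⟨Coloring.mk ψ fun {u v} h e => (le_bot_iff.2 (b2 (ψ v))) ⟨h, e, rfl⟩⟩)
  have e2 : {E : SimpleGraph (Fin k) | E ∈ Set.univ ∧ Eᶜ = E} = ∅ := by
    refine Set.eq_empty_of_forall_notMem fun E h => ?_
    have h3 : Eᶜ.Adj ⟨0, by omega⟩ ⟨1, by omega⟩ ↔ E.Adj ⟨0, by omega⟩ ⟨1, by omega⟩ := by rw [h.2]
    rw [compl_adj, and_iff_right (by simp)] at h3
    exact not_iff_self h3
  rw [fc, cnt, e, swap_par Set.univ (fun E => Eᶜ) (fun _ _ => Set.mem_univ _) compl_compl, e2, Set.ncard_empty,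
    Nat.cast_zero]

variable {F : Set (SimpleGraph W)} {B : Type} [CommRing B] {y : Set (SimpleGraph W) → B}
  {l : B →+ ZMod 2}

lemma ev_pow (ha : Alg F y l) (k : ℕ) : l (y {⊥} ^ k) = fc F k := by
  have := ha.ev (Fin k) (fun _ => {⊥}) fun _ => (jnrow W).2.1
  rwa [prod_const, card_univ, Fintype.card_fin] at this

lemma ev_col (ha : Alg F y l) {m : ℕ} (hm : 0 < m) {H₀ : SimpleGraph W} (h₀ : H₀ ∈ F)
    (hc : H₀.Colorable (m + 1)) {k : ℕ} (hk : 0 < k) :
    l (y (Col W m) * y {⊥} ^ k) = fc (Rem F m) k := by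
  have := ha.ev (Option (Fin k)) (fun o => o.elim (Col W m) fun _ => {⊥}) (by
    rintro (_ | _)
    · exact col_good hm
    · exact (jnrow W).2.1)
  rw [iso hm h₀ hc hk, Fintype.prod_option] at this
  simpa using this

variable [Finite W]

lemma fc_one {m : ℕ} (hm : 0 < m) (hF : ∀ H ∈ F, ¬ H.Colorable m) : fc F 1 = 1 := by
  obtain ⟨B, _, y, l, ha⟩ := ring swap jnrow W F
  have := ha.ev Unit (fun _ => {⊥}) fun _ => (jnrow W).2.1
  rw [main_one F _ fun H hH e => hF H hH (by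
    obtain rfl : H = ⊥ := e
    exact (col_good hm).bot), Fintype.prod_unique] at this
  rw [← ev_pow ha, pow_one, this]

lemma fc_per {H₀ : SimpleGraph W} (h₀ : H₀ ∈ F) (hc : H₀.Colorable 4) (i k : ℕ) :
    fc F (i + 1 + 3 * k) = fc F (i + 1) := by
  obtain ⟨B, _, y, l, ha⟩ := ring swap jnrow W F
  obtain ⟨j1, j2, _, _⟩ := jnrow W
  have h1 : phi (phi (y {⊥})) = 0 := by
    rw [← ha.join _ j2, ← ha.join _ (j1 _ j2)]
    exact ha.zero _ (j1 _ (j1 _ j2)) H₀ h₀ ((Set.ext_iff.1 (col_jn 2) H₀).2 hc)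
  have h2 : y {⊥} ^ 4 = y {⊥} := by
    unfold phi at h1
    linear_combination h1 - (y {⊥} ^ 3 + y {⊥} ^ 2 + y {⊥}) * ha.two
  rw [← ev_pow ha, ← ev_pow ha]
  congr 1
  induction k with
  | zero => rfl
  | succ k ih =>
    rw [← ih]
    linear_combination y {⊥} ^ (i + 3 * k) * h2

lemma fc_three {H₀ : SimpleGraph W} (h₀ : H₀ ∈ F) (hc : H₀.Colorable 3)
    (hF : ∀ H ∈ F, ¬ H.Colorable 2) : fc F 3 = 1 := by
  obtain ⟨B, _, y, l, ha⟩ := ring swap jnrow W F
  have h1 := ev_col ha two_pos h₀ hc one_pos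
  have h2 : y (Col W 2) = phi (y {⊥}) := by
    rw [← ha.join _ (jnrow W).2.1]
    exact congrArg y (col_jn 1).symm
  have h3 := ev_pow ha 2
  rw [fc_zero hF le_rfl le_rfl] at h3
  rw [fc_one two_pos (rem_not hF), h2, show phi (y {⊥}) * y {⊥} ^ 1 = y {⊥} ^ 3 + y {⊥} ^ 2 by
    unfold phi; ring, map_add, h3, add_zero, ev_pow ha] at h1
  exact h1

end Pool.Agent.MP_257582_lc.C80
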