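import Pool.Agent.MP_257582_lc.C80.Top
import Pool.Agent.MP_257582_lc.C80.Cnt
import Pool.Agent.MP_257582_lc.E99.CONT
import Pool.Agent.MP_257582_lc.E99.SUM
import Pool.Agent.MP_257582_lc.E99.KEY

/-! Forbidden subgraphs of chromatic number three or four. -/

set_option autoImplicit false

namespace Pool.Agent.MP_257582_lc.C80

open Finset SimpleGraph
open Pool.Agent.MP_257582_lc.E99

variable {W : Type}

lemma ty_bl {Y K : Type} (e : W ↪ K) (C : SimpleGraph Y) :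
    ty W (C.comap (Prod.fst : Y × K → Y)) = hT W C := by
  ext H
  exact ⟨fun ⟨f⟩ => ⟨⟨fun w => (f w).1, fun h => f.toHom.map_rel h⟩⟩, fun ⟨f⟩ =>
    ⟨⟨⟨fun w => (f w, e w), fun h => f.map_rel h⟩, fun _ _ h => e.injective (congrArg Prod.snd h)⟩⟩⟩

lemma bl_sum {B : Type} [CommRing B] (y : Set (SimpleGraph W) → B) (r : ℕ) {K : Type} [Zero K]
    (e : W ↪ K) : ∑ᶠ S ∈ Bl r K, y (ty W S) =
      ∑ᶠ C ∈ {C : SimpleGraph (ZMod r) | TI C}, y (hT W C) := by
  have e1 : Bl r K = (fun C => C.comap Prod.fst) '' {C : SimpleGraph (ZMod r) | TI C} := by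
    ext S
    exact ⟨fun ⟨C, h, e⟩ => ⟨C, h, e.symm⟩, fun ⟨C, h, e⟩ => ⟨C, h, e.symm⟩⟩
  rw [e1, finsum_mem_image fun C _ C' _ h => ?_]
  · simp only [ty_bl e]
  · ext a b
    have h' : C.comap (Prod.fst : ZMod r × K → ZMod r) = C'.comap Prod.fst := h
    change (C.comap (Prod.fst : ZMod r × K → ZMod r)).Adj (a, 0) (b, 0) ↔
      (C'.comap (Prod.fst : ZMod r × K → ZMod r)).Adj (a, 0) (b, 0)
    rw [h']

lemma ti_iff {Y : Type} [AddCommGroup Y] {C : SimpleGraph Y} (h : TI C) (x d : Y) :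
    C.Adj x (x + d) ↔ C.Adj 0 d := by
  refine ⟨fun k => ?_, fun k => ?_⟩
  · have := h (-x) _ _ k
    rwa [add_neg_cancel, add_neg_cancel_comm] at this
  · have := h x _ _ k
    rwa [zero_add, add_comm] at this

lemma ti_one : {C : SimpleGraph (ZMod 1) | TI C} = {⊥} := by
  have : Subsingleton (ZMod 1) := ZMod.subsingleton_iff.2 rfl
  ext C
  refine ⟨fun _ => ?_, fun h => ?_⟩
  · exact le_bot_iff.1 fun a b h => h.ne (Subsingleton.elim _ _)
  · exact fun _ a b h => (h.ne (Subsingleton.elim _ _)).elim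

lemma ti_three : {C : SimpleGraph (ZMod 3) | TI C} = {⊥, ⊤} := by
  have k : ∀ a b : ZMod 3, a ≠ b → b = a + 1 ∨ a = b + 1 := by decide
  ext C
  refine ⟨fun h => ?_, ?_⟩
  · by_cases h1 : C.Adj 0 1
    · refine Or.inr (top_unique fun a b hab => ?_)
      rcases k a b hab with rfl | rfl
      · exact (ti_iff h _ _).2 h1
      · exact ((ti_iff h _ _).2 h1).symm
    · refine Or.inl (le_bot_iff.1 fun a b hab => h1 ?_)
      rcases k a b hab.ne with rfl | rfl
      · exact (ti_iff h _ _).1 hab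
      · exact (ti_iff h _ _).1 hab.symm
  · rintro (rfl | rfl)
    · exact fun _ _ _ h => h.elim
    · exact fun c a b h h' => h (add_right_cancel h')

/-- the circulant graphs on five points -/
def cc (q : Bool × Bool) : SimpleGraph (ZMod 5) where
  Adj x y := (q.1 = true ∧ (y = x + 1 ∨ x = y + 1)) ∨ (q.2 = true ∧ (y = x + 2 ∨ x = y + 2))
  symm := ⟨fun _ _ h => h.imp (fun h => ⟨h.1, h.2.symm⟩) fun h => ⟨h.1, h.2.symm⟩⟩
  loopless := ⟨fun x h => by
    have k : ∀ x : ZMod 5, x ≠ x + 1 ∧ x ≠ x + 2 := by decide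
    exact h.elim (fun h => (k x).1 (h.2.elim id id)) fun h => (k x).2 (h.2.elim id id)⟩

lemma cc_adj (q : Bool × Bool) (x y : ZMod 5) : (cc q).Adj x y ↔
    (q.1 = true ∧ (y = x + 1 ∨ x = y + 1)) ∨ (q.2 = true ∧ (y = x + 2 ∨ x = y + 2)) := Iff.rfl

lemma ti_five : {C : SimpleGraph (ZMod 5) | TI C} = Set.range cc := by
  classical
  have k : ∀ a b : ZMod 5, a ≠ b → (b = a + 1 ∨ a = b + 1) ∨ (b = a + 2 ∨ a = b + 2) := by decide
  ext C
  refine ⟨fun h => ⟨(decide (C.Adj 0 1), decide (C.Adj 0 2)), ?_⟩, ?_⟩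
  · ext a b
    simp only [cc_adj, decide_eq_true_eq]
    refine ⟨?_, fun hab => ?_⟩
    · rintro (⟨h1, rfl | rfl⟩ | ⟨h1, rfl | rfl⟩)
      · exact (ti_iff h _ _).2 h1
      · exact ((ti_iff h _ _).2 h1).symm
      · exact (ti_iff h _ _).2 h1
      · exact ((ti_iff h _ _).2 h1).symm
    · refine (k a b hab.ne).imp (fun e => ⟨?_, e⟩) fun e => ⟨?_, e⟩
      · rcases e with rfl | rfl
        · exact (ti_iff h _ _).1 hab
        · exact (ti_iff h _ _).1 hab.symm
      · rcases e with rfl | rfl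
        · exact (ti_iff h _ _).1 hab
        · exact (ti_iff h _ _).1 hab.symm
  · rintro ⟨q, rfl⟩ c x y
    simp only [cc_adj]
    revert q c x y
    decide

lemma cc_inj : Function.Injective cc := by
  intro q q' h
  have h1 := cc_adj q 0 1
  have h2 := cc_adj q 0 2
  rw [h, cc_adj] at h1 h2
  revert h1 h2
  clear h
  revert q q'
  decide

variable {F : Set (SimpleGraph W)} {B : Type} [CommRing B] {y : Set (SimpleGraph W) → B}
  {l : B →+ ZMod 2}

lemma sum_one : ∑ᶠ C ∈ {C : SimpleGraph (ZMod 1) | TI C}, y (hT W C) = y {⊥} := by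
  rw [ti_one, finsum_mem_singleton, hT_bot]

lemma sum_three : ∑ᶠ C ∈ {C : SimpleGraph (ZMod 3) | TI C}, y (hT W C) = y {⊥} + y (Col W 3) := by
  have hne : (⊥ : SimpleGraph (ZMod 3)) ≠ ⊤ := fun h => by
    have : (⊤ : SimpleGraph (ZMod 3)).Adj 0 1 := by decide
    rw [← h] at this
    exact this
  rw [ti_three, finsum_mem_pair hne, hT_bot]
  rfl

lemma sum_five (ha : Alg F y l) {H₀ : SimpleGraph W} (h₀ : H₀ ∈ F) (hc : H₀.Colorable 4) :
    ∑ᶠ C ∈ {C : SimpleGraph (ZMod 5) | TI C}, y (hT W C) = y {⊥} := by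
  have e1 : cc (false, false) = ⊥ := by
    ext a b
    simp [cc_adj]
  have e2 : hT W (cc (true, false)) = hT W (cc (false, true)) := by
    have k1 : ∀ a b : ZMod 5, (cc (true, false)).Adj a b → (cc (false, true)).Adj (2 * a) (2 * b) := by
      simp only [cc_adj]
      decide
    have k2 : ∀ a b : ZMod 5, (cc (false, true)).Adj a b → (cc (true, false)).Adj (2 * a) (2 * b) := by
      simp only [cc_adj]
      decide
    ext K
    exact ⟨fun ⟨f⟩ => ⟨⟨fun w => 2 * f w, fun h => k1 _ _ (f.map_rel h)⟩⟩,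
      fun ⟨f⟩ => ⟨⟨fun w => 2 * f w, fun h => k2 _ _ (f.map_rel h)⟩⟩⟩
  have e3 : y (hT W (cc (true, true))) = 0 := by
    have k : ∀ a b : Fin 4, a ≠ b → (cc (true, true)).Adj ((a : ℕ) : ZMod 5) ((b : ℕ) : ZMod 5) := by
      simp only [cc_adj]
      decide
    obtain ⟨c⟩ := hc
    exact ha.zero _ (hT_good _) H₀ h₀ ⟨⟨fun w => ((c w : ℕ) : ZMod 5), fun h => k _ _ (c.valid h)⟩⟩
  rw [ti_five, finsum_mem_range cc_inj, finsum_eq_sum_of_fintype, Fintype.sum_prod_type]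
  simp only [Fintype.sum_bool]
  rw [e1, e2, e3, hT_bot]
  linear_combination y (hT W (cc (false, true))) * ha.two

lemma key [Finite W] (ha : Alg F y l) {H₀ : SimpleGraph W} (h₀ : H₀ ∈ F) {n d : ℕ}
    {f : SimpleGraph (Fin n) → Prop} (hf : Setup n d f) (hd : d < n.choose 2)
    (hfG : ∀ G, f G ↔ ∀ H ∈ F, ¬ H ⊑ G) {p a : ℕ} (hp : p.Prime) (h0 : a ≠ 0)
    (hW : Nat.card W ≤ p ^ a) (r k : ℕ) [NeZero r] (hn : n = (r + k) * p ^ a) :
    l ((∑ᶠ C ∈ {C : SimpleGraph (ZMod r) | TI C}, y (hT W C)) * y {⊥} ^ k) = 0 := by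
  classical
  have := Fact.mk hp
  have hK : Nat.card (GaloisField p a) = p ^ a := GaloisField.card p a h0
  let ρ : Option (Fin k) → ℕ := fun o => o.elim r fun _ => 1
  have hρ : ∀ t, NeZero (ρ t) := by
    rintro (_ | _)
    · exact ‹NeZero r›
    · exact ⟨one_ne_zero⟩
  have hcard : ∀ t, Nat.card (ZMod (ρ t) × GaloisField p a) = ρ t * p ^ a := fun t => by
    rw [Nat.card_prod, Nat.card_zmod, hK]
  have hx : Nat.card (Σ t, ZMod (ρ t) × GaloisField p a) = n := by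
    rw [Nat.card_sigma, sum_congr rfl fun t _ => hcard t, Fintype.sum_option, hn]
    simp [ρ, add_mul]
  obtain ⟨e⟩ : Nonempty (W ↪ GaloisField p a) := by
    have := Fintype.ofFinite W
    have := Fintype.ofFinite (GaloisField p a)
    exact Function.Embedding.nonempty_of_card_le (by
      rwa [← Nat.card_eq_fintype_card, ← Nat.card_eq_fintype_card, hK])
  have s1 : Subsingleton (ZMod 1) := ZMod.subsingleton_iff.2 rfl
  have h1 := topc ρ p (GaloisField p a) hf hd hx (by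
    rintro (_ | t) (_ | t') h c
    · exact absurd rfl h
    · exact ⟨c.val, ZMod.natCast_zmod_val c, s1.elim _ _⟩
    · exact ⟨0, s1.elim _ _, Nat.cast_zero⟩
    · exact ⟨0, s1.elim _ _, Nat.cast_zero⟩) fun G t h hG => (key_inG hf hfG hx G).1 hG H₀ h₀
      ⟨⟨⟨fun w => ⟨t, (0, e w)⟩, fun k => h _ _ (e.injective.ne k.ne)⟩, fun u v k => e.injective
        (congrArg (fun z : Σ t, ZMod (ρ t) × GaloisField p a => z.2.2) k)⟩⟩
  have h2 := sum W (Option (Fin k)) (fun t => ZMod (ρ t) × GaloisField p a) F B y l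
    (fun t => Bl (ρ t) (GaloisField p a)) ha (by
      rintro t _ ⟨C, _, rfl⟩
      rw [ty_bl e]
      exact hT_good C)
  have h3 : ∏ t, ∑ᶠ S ∈ Bl (ρ t) (GaloisField p a), y (ty W S) =
      (∑ᶠ C ∈ {C : SimpleGraph (ZMod r) | TI C}, y (hT W C)) * y {⊥} ^ k := by
    rw [prod_congr rfl fun t _ => bl_sum y (ρ t) e, Fintype.prod_option]
    refine congrArg _ ((prod_congr rfl fun _ _ => sum_one).trans ?_)
    rw [prod_const, card_univ, Fintype.card_fin]
  rw [← h3, ← h2, ← h1]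
  refine congrArg (fun s : Set (SimpleGraph (Option (Fin k)) ×
    ∀ t, SimpleGraph (ZMod (ρ t) × GaloisField p a)) => ((s.ncard : ℕ) : ZMod 2))
    (Set.ext fun q => and_congr Iff.rfl ?_)
  rw [key_inG hf hfG hx]
  exact forall₂_congr fun H _ => not_congr (cont W _ _ H q.1 q.2 fun t => by
    rw [hcard]
    exact hW.trans (Nat.le_mul_of_pos_left _ (NeZero.pos _))).symm

lemma arith (h : ℕ) : ∃ N, ∀ n ≥ N, ∀ m ≤ 3, (∀ c p : ℕ, p.Prime → 2 ≤ c → c ≤ m → n ≠ c * p) →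
    ∃ p a j : ℕ, p.Prime ∧ a ≠ 0 ∧ h ≤ p ^ a ∧ n = j * p ^ a ∧ (j = 1 ∨ m < j) := by
  refine ⟨((h + 1) ^ 2).factorial + 1, fun n hn m hm hc => ?_⟩
  have h1 : ¬ n ∣ ((h + 1) ^ 2).factorial := fun k =>
    absurd (Nat.le_of_dvd (Nat.factorial_pos _) k) (by omega)
  rw [Nat.dvd_iff_prime_pow_dvd_dvd] at h1
  push Not at h1
  obtain ⟨p, a, hp, ⟨j, hj⟩, h2⟩ := h1
  have h3 : (h + 1) ^ 2 < p ^ a := not_le.1 fun k =>
    h2 (Nat.dvd_factorial (pow_pos hp.pos _) k)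
  have h4 : h + 1 ≤ (h + 1) ^ 2 := Nat.le_self_pow two_ne_zero _
  have a0 : a ≠ 0 := by
    rintro rfl
    rw [pow_zero] at h3
    omega
  have j0 : j ≠ 0 := by
    rintro rfl
    omega
  by_cases h5 : j = 1 ∨ m < j
  · exact ⟨p, a, j, hp, a0, by omega, hj.trans (mul_comm _ _), h5⟩
  · obtain ⟨b, rfl⟩ := Nat.exists_eq_succ_of_ne_zero a0
    have b0 : b ≠ 0 := by
      rintro rfl
      exact hc j p hp (by omega) (by omega) (by simpa [mul_comm] using hj)
    have h6 : p ^ (b + 1) ≤ (p ^ b) ^ 2 := by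
      rw [← pow_mul]
      exact Nat.pow_le_pow_right hp.pos (by omega)
    have h7 : h + 1 < p ^ b := lt_of_pow_lt_pow_left₀ 2 (Nat.zero_le _) (h3.trans_le h6)
    have h8 : 2 * 2 ≤ j * p := Nat.mul_le_mul (by omega) hp.two_le
    exact ⟨p, b, j * p, hp, b0, by omega, by rw [hj, pow_succ]; ring, Or.inr (by omega)⟩

theorem main (W : Type) [Finite W] (F : Set (SimpleGraph W)) {m : ℕ} (hm : m = 2 ∨ m = 3)
    (hF : ∀ H ∈ F, ¬ H.Colorable m) {H₀ : SimpleGraph W} (h₀ : H₀ ∈ F)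
    (hc : H₀.Colorable (m + 1)) : ∃ N, ∀ n ≥ N,
      (∀ c p : ℕ, p.Prime → 2 ≤ c → c ≤ m → n ≠ c * p) →
      ∀ (d : ℕ) (f : SimpleGraph (Fin n) → Prop), Setup n d f → d < n.choose 2 →
        (∀ G, f G ↔ ∀ H ∈ F, ¬ H ⊑ G) → False := by
  obtain ⟨N, hN⟩ := arith (Nat.card W)
  refine ⟨N, fun n hn hcp d f hf hd hfG => ?_⟩
  obtain ⟨p, a, j, hp, a0, hW, e, hj⟩ := hN n hn m (by omega) hcp
  obtain ⟨B, _, y, l, ha⟩ := ring swap jnrow W F
  have m0 : 0 < m := by omega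
  have h4 : H₀.Colorable 4 := hc.mono (by omega)
  have per := fc_per h₀ h4
  have f1 := fc_one m0 hF
  have no : ∀ k, fc F k = 0 → fc F k = 1 → False := fun k a b => zero_ne_one (a.symm.trans b)
  have k1 : fc F j = 0 := by
    have := key ha h₀ hf hd hfG hp a0 hW 1 (j - 1) (by rw [e]; congr 1; omega)
    rwa [sum_one, ← pow_succ', ev_pow ha, show j - 1 + 1 = j by omega] at this
  have k3 : 3 ≤ j → fc F (j - 2) + l (y (Col W 3) * y {⊥} ^ (j - 3)) = 0 := fun h => by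
    have := key ha h₀ hf hd hfG hp a0 hW 3 (j - 3) (by rw [e]; congr 1; omega)
    rwa [sum_three, add_mul, ← pow_succ', map_add, ev_pow ha,
      show j - 3 + 1 = j - 2 by omega] at this
  have k5 : 5 ≤ j → fc F (j - 4) = 0 := fun h => by
    have := key ha h₀ hf hd hfG hp a0 hW 5 (j - 5) (by rw [e]; congr 1; omega)
    rwa [sum_five ha h₀ h4, ← pow_succ', ev_pow ha, show j - 5 + 1 = j - 4 by omega] at this
  have g1 : ∀ k, k % 3 = 1 → fc F k = 1 := fun k h => by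
    rw [show k = 0 + 1 + 3 * (k / 3) by omega, per, f1]
  by_cases c1 : j % 3 = 1
  · exact no j k1 (g1 j c1)
  by_cases c2 : j % 3 = 2
  · exact no _ (k5 (by omega)) (g1 _ (by omega))
  rcases hm with rfl | rfl
  · refine no j k1 ?_
    rw [show j = 2 + 1 + 3 * (j / 3 - 1) by omega, per, fc_three h₀ hc hF]
  · have := k3 (by omega)
    rw [ev_col ha m0 h₀ hc (by omega), show j - 3 = 2 + 1 + 3 * (j / 3 - 2) by omega,
      fc_per (rem_mem m0 h₀) h4, fc_zero (rem_not hF) (by omega) le_rfl, add_zero] at this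
    exact no _ this (g1 _ (by omega))

end Pool.Agent.MP_257582_lc.C80
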