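import Pool.Agent.MP_257582_lc.C80.Main

set_option autoImplicit false

namespace Pool.Agent.Results.MP_257582_lc.SmallChromatic

/-- Let `F` be a set of graphs on a finite vertex set whose least chromatic number is `m + 1`, with
`m = 2` or `m = 3`. Then containing a copy of a member of `F` is evasive for all large `n` that are
not of the form `c * p` with `p` prime and `2 ≤ c ≤ m`. -/
theorem result (W : Type) [Finite W] (F : Set (SimpleGraph W)) (m : ℕ) (hm : m = 2 ∨ m = 3)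
    (hF : ∀ K ∈ F, ¬ K.Colorable m) (K₀ : SimpleGraph W) (h₀ : K₀ ∈ F)
    (hc : K₀.Colorable (m + 1)) :
    ∃ N : ℕ, ∀ n ≥ N, (∀ c p : ℕ, p.Prime → 2 ≤ c → c ≤ m → n ≠ c * p) →
      ∀ s : Finset (Sym2 (Fin n)) → SimpleGraph (Fin n) → Sym2 (Fin n),
        (∀ (Q : Finset (Sym2 (Fin n))) (G H : SimpleGraph (Fin n)),
            (∀ e ∈ Q, (e ∈ G.edgeSet ↔ e ∈ H.edgeSet)) → s Q G = s Q H) →
        ∃ G H : SimpleGraph (Fin n),
          (∀ e ∈ (fun Q : Finset (Sym2 (Fin n)) => insert (s Q G) Q)^[n.choose 2 - 1]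
                (∅ : Finset (Sym2 (Fin n))),
              (e ∈ G.edgeSet ↔ e ∈ H.edgeSet)) ∧
            (∃ K ∈ F, K.IsContained G) ∧ ¬ ∃ K ∈ F, K.IsContained H := by
  obtain ⟨N, h⟩ := Pool.Agent.MP_257582_lc.C80.main W F hm hF h₀ hc
  refine ⟨N + Nat.card W + 2, fun n hn hp s hs => ?_⟩
  by_contra hc
  refine h n (by omega) hp _ _ (Pool.Agent.MP_257582_lc.setup_of_strategy
    (fun G => ∃ K ∈ F, K.IsContained G) (fun G H hGH ⟨K, k1, k2⟩ => ⟨K, k1, k2.mono_right hGH⟩)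
    (fun σ G ⟨K, k1, k2⟩ => ⟨K, k1, k2.trans ⟨(SimpleGraph.Embedding.map σ.toEmbedding G).toCopy⟩⟩)
    ?_ ⟨⊥, fun ⟨K, k1, ⟨φ⟩⟩ => hF K k1 ⟨SimpleGraph.Coloring.mk (fun _ => ⟨0, by omega⟩)
      fun a => (φ.toHom.map_adj a).elim⟩⟩
    s hs hc) (Nat.sub_lt (Nat.choose_pos (by omega)) one_pos) fun G => by simp
  have := Fintype.ofFinite W
  obtain ⟨j⟩ := Function.Embedding.nonempty_of_card_le (α := W) (β := Fin n) (by
    rw [Fintype.card_fin, ← Nat.card_eq_fintype_card]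
    omega)
  exact ⟨⊤, K₀, h₀, ⟨⟨⟨j, fun a => j.injective.ne a.ne⟩, j.injective⟩⟩⟩

end Pool.Agent.Results.MP_257582_lc.SmallChromatic
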