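import Pool.Agent.MP_257582_lc.E99.TOP

/-! The theorem of Oliver modulo two for blocks that are permuted in cycles of coprime lengths. -/

set_option autoImplicit false

namespace Pool.Agent.MP_257582_lc.C80

open Finset SimpleGraph
open Pool.Agent.MP_257582_lc.H99 (aut)
open Pool.Agent.MP_257582_lc.E99

/-- the blow-ups of the circulant graphs -/
def Bl (r : ℕ) (K : Type) : Set (SimpleGraph (ZMod r × K)) :=
  {S | ∃ C : SimpleGraph (ZMod r), TI C ∧ S = C.comap Prod.fst}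

theorem topc {n d : ℕ} {f : SimpleGraph (Fin n) → Prop} {X : Type} [Fintype X] (ρ : X → ℕ)
    [∀ t, NeZero (ρ t)] (p : ℕ) [Fact p.Prime] (K : Type) [Field K] [Finite K]
    [Algebra (ZMod p) K] (hf : Setup n d f) (hd : d < n.choose 2)
    (hn : Nat.card (Σ t, ZMod (ρ t) × K) = n)
    (h4 : ∀ t t', t ≠ t' → ∀ (c : ZMod (ρ t)), ∃ k : ℕ, (k : ZMod (ρ t)) = c ∧ (k : ZMod (ρ t')) = 0)
    (hdead : ∀ (G : SimpleGraph (Σ t, ZMod (ρ t) × K)) (t : X),
      (∀ x y : K, x ≠ y → G.Adj ⟨t, (0, x)⟩ ⟨t, (0, y)⟩) → ¬ InG f G) :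
    (({q : SimpleGraph X × ∀ t, SimpleGraph (ZMod (ρ t) × K) |
      (∀ t, q.2 t ∈ Bl (ρ t) K) ∧ InG f (glue q.1 q.2)}.ncard : ℕ) : ZMod 2) = 0 := by
  classical
  have hK : Fintype K := Fintype.ofFinite _
  obtain ⟨w, hw⟩ := IsCyclic.exists_monoid_generator (α := Kˣ)
  obtain ⟨α, a1, a2, a4⟩ : ∃ α : ((Σ t, ZMod (ρ t) × K) → ZMod p) → ∀ t, ZMod (ρ t) → K,
      α 0 = 0 ∧ (∀ c c', α (c + c') = α c + α c') ∧ ∀ b : ∀ t, ZMod (ρ t) → K, ∃ c, α c = b := by
    refine ⟨fun c t i => ∑ y, c ⟨t, (i, y)⟩ • y, ?_, fun c c' => ?_,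
      fun b => ⟨fun v => if v.2.2 = b v.1 v.2.1 then 1 else 0, ?_⟩⟩
    · funext t i
      simp
    · funext t i
      simp only [Pi.add_apply, add_smul, sum_add_distrib]
    · funext t i
      beta_reduce
      rw [sum_eq_single (b t i) (fun y _ hy => by simp [hy]) fun h => absurd (mem_univ _) h]
      simp
  let m : ∀ t, ZMod (ρ t) → Kˣ := fun _ i => if i = 0 then w else 1
  obtain ⟨γ, g1⟩ : ∃ γ : ∀ t, Equiv.Perm (ZMod (ρ t) × K),
      ∀ t i x, γ t (i, x) = (i + 1, (m t i : K) * x) :=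
    ⟨fun t => (Equiv.prodCongrRight fun i => (m t i).mulLeft).trans
      ((Equiv.addRight 1).prodCongr (Equiv.refl K)), fun _ _ _ => rfl⟩
  obtain ⟨τ, t1⟩ : ∃ τ : (∀ t, ZMod (ρ t) → K) → ∀ t, Equiv.Perm (ZMod (ρ t) × K),
      ∀ b t i x, τ b t (i, x) = (i, x + b t i) :=
    ⟨fun b t => Equiv.prodCongrRight fun i => Equiv.addRight (b t i), fun _ _ _ _ => rfl⟩
  have g4 : ∀ t (j : ℕ) (x : ZMod (ρ t) × K), ((γ t ^ j) x).1 = x.1 + j := fun t j x => by
    induction j with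
    | zero => simp
    | succ j ih =>
      rw [pow_succ', Equiv.Perm.mul_apply, ← Prod.mk.eta (p := (γ t ^ j) x), g1, ih, Nat.cast_succ,
        add_assoc]
  have h1 := graph_even hf hd (X := Σ t, ZMod (ρ t) × K) hn (p := p)
    (φ := fun c => Equiv.sigmaCongrRight (τ (α c))) (g := Equiv.sigmaCongrRight γ)
    (Equiv.ext fun ⟨t, i, x⟩ => congrArg (Sigma.mk t) (by
      change τ (α 0) t (i, x) = (i, x)
      rw [t1, a1]
      simp))
    (fun c c' => Equiv.ext fun ⟨t, i, x⟩ => congrArg (Sigma.mk t) (by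
      change τ (α (c + c')) t (i, x) = τ (α c) t (τ (α c') t (i, x))
      rw [t1, t1, t1, a2, Pi.add_apply, Pi.add_apply, add_assoc, add_comm (α c t i)]))
    (fun c => by
      obtain ⟨c', hc'⟩ := a4 fun t i => (m t (i - 1) : K) * α c t (i - 1)
      refine ⟨c', Equiv.ext fun ⟨t, i, x⟩ => congrArg (Sigma.mk t) ?_⟩
      change γ t (τ (α c) t (i, x)) = τ (α c') t (γ t (i, x))
      rw [t1, g1, g1, t1, hc']
      beta_reduce
      rw [add_sub_cancel_right, mul_add])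
  rw [← h1]
  refine congrArg _ (Set.ncard_congr (fun q _ => glue q.1 q.2) (fun q hq => ⟨⟨fun c =>
    top_glue _ _ fun t x y h => ?_, top_glue _ _ fun t x y h => ?_⟩, hq.2⟩)
    (fun q q' _ _ e => ?_) fun G hG => ?_)
  · obtain ⟨C, _, e⟩ := hq.1 t
    obtain ⟨i, x⟩ := x
    obtain ⟨j, y⟩ := y
    rw [t1, t1]
    rw [e] at h ⊢
    exact h
  · obtain ⟨C, hC, e⟩ := hq.1 t
    obtain ⟨i, x⟩ := x
    obtain ⟨j, y⟩ := y
    rw [g1, g1]
    rw [e] at h ⊢
    exact hC 1 i j h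
  · have e1 : glue q.1 q.2 = glue q'.1 q'.2 := e
    refine Prod.ext ?_ (funext fun t => ?_)
    · ext t t'
      by_cases h : t = t'
      · rw [h]; simp
      · have k1 := glue_ne q.1 q.2 (x := ⟨t, 0⟩) (y := ⟨t', 0⟩) h
        have k2 := glue_ne q'.1 q'.2 (x := ⟨t, 0⟩) (y := ⟨t', 0⟩) h
        rw [e1] at k1
        exact k1.symm.trans k2
    · ext a b
      rw [← glue_same q.1 q.2, e1, glue_same]
  · obtain ⟨⟨i1, i2⟩, i3⟩ := hG
    have tr : ∀ (b : ∀ t, ZMod (ρ t) → K) t t' i i' x x', G.Adj ⟨t, (i, x)⟩ ⟨t', (i', x')⟩ →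
        G.Adj ⟨t, (i, x + b t i)⟩ ⟨t', (i', x' + b t' i')⟩ := fun b t t' i i' x x' h => by
      obtain ⟨c, rfl⟩ := a4 b
      rw [← t1, ← t1]
      exact i1 c _ _ h
    have st : ∀ t t' i i' x x', G.Adj ⟨t, (i, x)⟩ ⟨t', (i', x')⟩ →
        G.Adj ⟨t, (i + 1, (m t i : K) * x)⟩ ⟨t', (i' + 1, (m t' i' : K) * x')⟩ :=
      fun t t' i i' x x' h => by
        rw [← g1, ← g1]
        exact i2 _ _ h
    have l1 : ∀ t t' i i' x x' y y', (⟨t, i⟩ : Σ t, ZMod (ρ t)) ≠ ⟨t', i'⟩ →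
        G.Adj ⟨t, (i, x)⟩ ⟨t', (i', x')⟩ → G.Adj ⟨t, (i, y)⟩ ⟨t', (i', y')⟩ :=
      fun t t' i i' x x' y y' h hab => by
        have := tr (fun s k => if (⟨s, k⟩ : Σ t, ZMod (ρ t)) = ⟨t, i⟩ then y - x else y' - x')
          _ _ _ _ _ _ hab
        rwa [if_pos rfl, if_neg h.symm, add_sub_cancel, add_sub_cancel] at this
    have l2 : ∀ t t' a a' b, t ≠ t' → G.Adj ⟨t, a⟩ ⟨t', b⟩ → G.Adj ⟨t, a'⟩ ⟨t', b⟩ :=
      fun t t' a a' b h hab => by
        obtain ⟨k, k1, k2⟩ := h4 t t' h (a'.1 - a.1)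
        have h5 := top_pow i2 k hab
        have h6 := g4 t k a
        have h7 := g4 t' k b
        rw [k1, add_sub_cancel] at h6
        rw [k2, add_zero] at h7
        rw [← Prod.mk.eta (p := (γ t ^ k) a), ← Prod.mk.eta (p := (γ t' ^ k) b), h6, h7] at h5
        exact l1 t t' _ _ _ _ a'.2 b.2 (fun e => h (congrArg Sigma.fst e)) h5
    have nin : ∀ t i x y, ¬ G.Adj ⟨t, (i, x)⟩ ⟨t, (i, y)⟩ := fun t i x y h => by
      have s1 : ∀ i z, G.Adj ⟨t, (i, 0)⟩ ⟨t, (i, z)⟩ →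
          G.Adj ⟨t, (i + 1, 0)⟩ ⟨t, (i + 1, (m t i : K) * z)⟩ := fun i z h => by
        have := st _ _ _ _ _ _ h
        rwa [mul_zero] at this
      have s2 : ∀ j : ℕ, ∃ z, G.Adj ⟨t, (i + j, 0)⟩ ⟨t, (i + j, z)⟩ := fun j => by
        induction j with
        | zero =>
          have := tr (fun _ _ => -x) _ _ _ _ _ _ h
          rw [add_neg_cancel] at this
          exact ⟨_, by rw [Nat.cast_zero, add_zero]; exact this⟩
        | succ j ih =>
          obtain ⟨z, hz⟩ := ih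
          exact ⟨_, by rw [Nat.cast_succ, ← add_assoc]; exact s1 _ _ hz⟩
      have s3 : ∀ z, G.Adj ⟨t, (0, 0)⟩ ⟨t, (0, z)⟩ → G.Adj ⟨t, (0, 0)⟩ ⟨t, (0, (w : K) * z)⟩ := by
        intro z hz
        have s4 : ∀ j : ℕ, j < ρ t → G.Adj ⟨t, (((j + 1 : ℕ) : ZMod (ρ t)), 0)⟩
            ⟨t, (((j + 1 : ℕ) : ZMod (ρ t)), (w : K) * z)⟩ := fun j hj => by
          induction j with
          | zero =>
            have := s1 _ _ hz
            rw [show m t 0 = w from if_pos rfl] at this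
            simpa using this
          | succ j ih =>
            have h0 : ((j + 1 : ℕ) : ZMod (ρ t)) ≠ 0 := fun e =>
              absurd (Nat.le_of_dvd j.succ_pos ((ZMod.natCast_eq_zero_iff _ _).1 e)) (not_le.2 hj)
            have := s1 _ _ (ih (by omega))
            rw [show m t ((j + 1 : ℕ) : ZMod (ρ t)) = 1 from if_neg h0, Units.val_one,
              one_mul] at this
            rw [Nat.cast_succ (j + 1)]
            exact this
        have h0 : 0 < ρ t := NeZero.pos _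
        have := s4 (ρ t - 1) (by omega)
        rwa [Nat.sub_add_cancel h0, ZMod.natCast_self] at this
      obtain ⟨z, hz⟩ := s2 (-i).val
      rw [ZMod.natCast_zmod_val, add_neg_cancel] at hz
      have z0 : z ≠ 0 := fun e => hz.ne (by rw [e])
      have s5 : ∀ j : ℕ, G.Adj ⟨t, (0, 0)⟩ ⟨t, (0, ((w ^ j : Kˣ) : K) * z)⟩ := fun j => by
        induction j with
        | zero => simpa using hz
        | succ j ih =>
          rw [pow_succ', Units.val_mul, mul_assoc]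
          exact s3 _ ih
      refine hdead G t (fun a b hab => ?_) i3
      obtain ⟨j, hj⟩ := hw (Units.mk0 _ (div_ne_zero (sub_ne_zero.2 (Ne.symm hab)) z0))
      have h6 := tr (fun _ _ => a) _ _ _ _ _ _ (s5 j)
      rwa [show w ^ j = _ from hj, Units.val_mk0, div_mul_cancel₀ _ z0, zero_add,
        sub_add_cancel] at h6
    let E : SimpleGraph X :=
      { Adj := fun t t' => t ≠ t' ∧ ∃ a b, G.Adj ⟨t, a⟩ ⟨t', b⟩
        symm := ⟨fun _ _ ⟨h, a, b, h'⟩ => ⟨h.symm, b, a, h'.symm⟩⟩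
        loopless := ⟨fun _ h => h.1 rfl⟩ }
    have e : (glue E fun t => G.comap (Sigma.mk (β := fun t => ZMod (ρ t) × K) t)) = G := by
      ext ⟨t, a⟩ ⟨t', b⟩
      by_cases h : t = t'
      · subst h
        rw [glue_same, SimpleGraph.comap_adj]
      · rw [glue_ne _ _ h]
        exact ⟨fun ⟨_, a', b', h'⟩ =>
          (l2 t' t b' b a (Ne.symm h) (l2 t t' a' a b' h h').symm).symm, fun h' => ⟨h, a, b, h'⟩⟩
    refine ⟨(E, fun t => G.comap (Sigma.mk (β := fun t => ZMod (ρ t) × K) t)), ⟨fun t =>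
      ⟨G.comap fun i => ⟨t, (i, 0)⟩, fun c i j h => ?_, ?_⟩, ?_⟩, e⟩
    · have s1 : ∀ k : ℕ, G.Adj ⟨t, (i + k, 0)⟩ ⟨t, (j + k, 0)⟩ := fun k => by
        induction k with
        | zero => simpa using h
        | succ k ih =>
          have := st _ _ _ _ _ _ ih
          rwa [mul_zero, mul_zero, add_assoc, add_assoc, ← Nat.cast_succ] at this
      have := s1 c.val
      rwa [ZMod.natCast_zmod_val] at this
    · ext ⟨i, x⟩ ⟨j, y⟩
      change G.Adj ⟨t, (i, x)⟩ ⟨t, (j, y)⟩ ↔ G.Adj ⟨t, (i, 0)⟩ ⟨t, (j, 0)⟩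
      by_cases h : i = j
      · subst h
        exact iff_of_false (nin _ _ _ _) (nin _ _ _ _)
      · have h' : (⟨t, i⟩ : Σ t, ZMod (ρ t)) ≠ ⟨t, j⟩ := fun e =>
          h (sigma_mk_injective (β := fun t => ZMod (ρ t)) e)
        exact ⟨l1 _ _ _ _ _ _ _ _ h', l1 _ _ _ _ _ _ _ _ h'⟩
    · change InG f (glue E fun t => G.comap (Sigma.mk (β := fun t => ZMod (ρ t) × K) t))
      rw [e]
      exact i3

end Pool.Agent.MP_257582_lc.C80
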